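import Mathlib

namespace Pool.Agent.Results.MP_8dfbdc_an.NotSmooth

open Filter Topology Set Real

/-- `M` is a `C¹` embedded submanifold of `ℝ^n` near `p` -/
def SmoothAt {n : ℕ} (M : Set (Fin n → ℝ)) (p : Fin n → ℝ) : Prop :=
  ∃ (U V : Set (Fin n → ℝ)) (k : ℕ) (ψ φ : (Fin n → ℝ) → Fin n → ℝ), IsOpen U ∧ p ∈ U ∧ IsOpen V ∧
    ContDiffOn ℝ 1 ψ U ∧ ContDiffOn ℝ 1 φ V ∧ MapsTo ψ U V ∧ MapsTo φ V U ∧ InvOn φ ψ U V ∧
    ψ '' (U ∩ M) = V ∩ {y | ∀ i : Fin n, k ≤ i.val → y i = 0}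

noncomputable def g (a b : ℝ) : ℝ := a - b + sin (a + b)

lemma g_lip (a b a' b' r : ℝ) (h1 : |a - a'| ≤ r) (h2 : |b - b'| ≤ r) :
    |g a b - g a' b'| ≤ 2 * r := by
  have h := abs_le.1 (abs_sin_sub_sin_le (a + b) (a' + b'))
  rw [abs_le] at *
  unfold g
  rcases abs_cases (a + b - (a' + b')) with ⟨e, -⟩ | ⟨e, -⟩ <;> constructor <;> linarith

noncomputable def f (x : Fin 3 → ℝ) : Fin 3 → ℝ :=
  ![x 0, x 1, (g (x 2) (x 0) + g (x 2) (x 1) + g (x 2) 0) / 6]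

noncomputable def ρ (t : ℝ) : ℝ := t - sin t

lemma fix_iff (x : Fin 3 → ℝ) : f x = x ↔ ρ (x 2 + x 0) + ρ (x 2 + x 1) + ρ (x 2) = 0 := by
  rw [funext_iff, Fin.forall_fin_succ, Fin.forall_fin_two]
  simp [f, g, ρ]
  constructor <;> intro h <;> linarith

lemma rho_lim {u : ℝ → ℝ} {a : ℝ} (h : HasDerivAt u a 0) (h0 : u 0 = 0) :
    Tendsto (fun t => ρ (u t) / t ^ 3) (𝓝[≠] 0) (𝓝 (a ^ 3 / 6)) := by
  have h1 : Tendsto (fun t => u t / t) (𝓝[≠] 0) (𝓝 a) := by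
    simpa [slope_fun_def_field, h0] using hasDerivAt_iff_tendsto_slope.1 h
  have h2 : Tendsto u (𝓝[≠] 0) (𝓝 0) :=
    (by simpa [h0] using h.continuousAt.tendsto : Tendsto u (𝓝 0) (𝓝 0)).mono_left
      nhdsWithin_le_nhds
  have h3 : Tendsto (fun t => (ρ (u t) - u t ^ 3 / 6) / t ^ 3) (𝓝[≠] 0) (𝓝 0) := by
    refine squeeze_zero_norm' (a := fun t => |u t / t| ^ 3 * |u t|) ?_
      (by simpa using (h1.abs.pow 3).mul h2.abs)
    filter_upwards [h2.eventually (Metric.closedBall_mem_nhds 0 one_pos)] with t ht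
    have hb := sin_bound (x := u t) (by simpa using ht)
    rw [norm_div, norm_pow, abs_div, div_pow, div_mul_eq_mul_div, Real.norm_eq_abs, Real.norm_eq_abs]
    gcongr
    rw [show ρ (u t) - u t ^ 3 / 6 = -(sin (u t) - (u t - u t ^ 3 / 6)) by unfold ρ; ring, abs_neg]
    have h4 : |u t| ≤ 1 := by simpa using ht
    nlinarith [pow_nonneg (abs_nonneg (u t)) 4]
  have := h3.add ((h1.pow 3).div_const 6)
  rw [zero_add] at this
  exact this.congr fun t => by ring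

lemma tangent_add {n : ℕ} {M : Set (Fin n → ℝ)} (h : SmoothAt M 0) {a b : Fin n → ℝ}
    (ha : ∀ t : ℝ, t • a ∈ M) (hb : ∀ t : ℝ, t • b ∈ M) :
    ∃ γ : ℝ → Fin n → ℝ, HasDerivAt γ (a + b) 0 ∧ γ 0 = 0 ∧ ∀ᶠ t in 𝓝 0, γ t ∈ M := by
  obtain ⟨U, V, k, ψ, φ, hU, h0, hV, hψ, hφ, m1, m2, hi, hM⟩ := h
  have d1 := ((hψ.contDiffAt (hU.mem_nhds h0)).differentiableAt one_ne_zero).hasFDerivAt
  have d2 := ((hφ.contDiffAt (hV.mem_nhds (m1 h0))).differentiableAt one_ne_zero).hasFDerivAt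
  have hid : (fderiv ℝ φ (ψ 0)).comp (fderiv ℝ ψ 0) = ContinuousLinearMap.id ℝ _ := by
    refine (d2.comp 0 d1).unique ((hasFDerivAt_id 0).congr_of_eventuallyEq ?_)
    filter_upwards [hU.mem_nhds h0] with x hx using hi.1 hx
  have hl : ∀ c : Fin n → ℝ, HasDerivAt (fun t : ℝ => ψ (t • c)) (fderiv ℝ ψ 0 c) 0 := fun c => by
    have : HasDerivAt (fun t : ℝ => t • c) c 0 := by simpa using (hasDerivAt_id (0 : ℝ)).smul_const c
    exact HasFDerivAt.comp_hasDerivAt_of_eq 0 d1 this (by simp)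
  have hm : ∀ c : Fin n → ℝ, (∀ t : ℝ, t • c ∈ M) →
      ∀ᶠ t : ℝ in 𝓝 0, ∀ i : Fin n, k ≤ i.val → ψ (t • c) i = 0 := fun c hc => by
    have : Tendsto (fun t : ℝ => t • c) (𝓝 0) (𝓝 0) :=
      (by fun_prop : Continuous fun t : ℝ => t • c).tendsto' 0 0 (by simp)
    filter_upwards [this.eventually (hU.mem_nhds h0)] with t ht
    have : ψ (t • c) ∈ ψ '' (U ∩ M) := mem_image_of_mem ψ ⟨ht, hc t⟩
    rw [hM] at this
    exact this.2
  have hw : HasDerivAt (fun t : ℝ => ψ (t • a) + ψ (t • b) - ψ 0)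
      (fderiv ℝ ψ 0 a + fderiv ℝ ψ 0 b) 0 := ((hl a).add (hl b)).sub_const _
  refine ⟨fun t => φ (ψ (t • a) + ψ (t • b) - ψ 0), ?_, by simpa using hi.1 h0, ?_⟩
  · have := HasFDerivAt.comp_hasDerivAt_of_eq 0 d2 hw (by simp)
    rwa [← map_add, ← ContinuousLinearMap.comp_apply, hid] at this
  · have h1 : ∀ᶠ t : ℝ in 𝓝 0, ψ (t • a) + ψ (t • b) - ψ 0 ∈ V :=
      hw.continuousAt.eventually (hV.mem_nhds (by simpa using m1 h0))
    filter_upwards [h1, hm a ha, hm b hb] with t ht h2 h3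
    have h4 := (hm a ha).self_of_nhds
    obtain ⟨y, hy, e⟩ : ψ (t • a) + ψ (t • b) - ψ 0 ∈ ψ '' (U ∩ M) := by
      rw [hM]
      refine ⟨ht, fun i hi => ?_⟩
      have := h4 i hi
      rw [zero_smul] at this
      simp [h2 i hi, h3 i hi, this]
    rw [← e, hi.1 hy.1]
    exact hy.2

theorem result : ∃ f : (Fin 3 → ℝ) → Fin 3 → ℝ, (∀ x y, ‖f x - f y‖ ≤ ‖x - y‖) ∧
    AnalyticOnNhd ℝ f univ ∧ ∃ p, f p = p ∧ ¬ SmoothAt {x | f x = x} p := by
  refine ⟨f, fun x y => ?_, fun x _ => ?_, 0, by simp [fix_iff, ρ], fun h => ?_⟩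
  · have h : ∀ i, |x i - y i| ≤ ‖x - y‖ := fun i => norm_le_pi_norm (x - y) i
    rw [pi_norm_le_iff_of_nonneg (norm_nonneg _)]
    intro i
    fin_cases i
    · exact h 0
    · exact h 1
    · have a := abs_le.1 (g_lip _ _ _ _ _ (h 2) (h 0))
      have b := abs_le.1 (g_lip _ _ _ _ _ (h 2) (h 1))
      have c := abs_le.1 (g_lip _ 0 _ 0 _ (h 2) (by simp))
      show |(g (x 2) (x 0) + g (x 2) (x 1) + g (x 2) 0) / 6 -
        (g (y 2) (y 0) + g (y 2) (y 1) + g (y 2) 0) / 6| ≤ _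
      rw [abs_le]
      constructor <;> linarith [a.1, a.2, b.1, b.2, c.1, c.2]
  · have hp : ∀ i, AnalyticAt ℝ (fun y : Fin 3 → ℝ => y i) x := fun i =>
      (ContinuousLinearMap.proj (R := ℝ) (φ := fun _ : Fin 3 => ℝ) i).analyticAt x
    have hg : ∀ u v : (Fin 3 → ℝ) → ℝ, AnalyticAt ℝ u x → AnalyticAt ℝ v x →
        AnalyticAt ℝ (fun y => g (u y) (v y)) x := fun u v hu hv =>
      (hu.sub hv).add (Real.analyticAt_sin.comp (hu.add hv))
    rw [analyticAt_pi_iff]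
    intro i
    fin_cases i
    · exact hp 0
    · exact hp 1
    · exact (((hg _ _ (hp 2) (hp 0)).add (hg _ _ (hp 2) (hp 1))).add
        (hg _ _ (hp 2) analyticAt_const)).div_const
  · obtain ⟨γ, hγ, h0, hM⟩ := tangent_add h (a := ![1, -1, 0]) (b := ![2, 1, -1])
      (fun t => by simp [fix_iff, ρ]) (fun t => by
        simp only [mem_ofPred_eq, fix_iff]
        simp [ρ, show -t + t * 2 = t by ring])
    have hc := hasDerivAt_pi.1 hγ
    have l := ((rho_lim ((hc 2).add (hc 0)) (by simp [h0])).add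
      (rho_lim ((hc 2).add (hc 1)) (by simp [h0]))).add (rho_lim (hc 2) (by simp [h0]))
    have := tendsto_nhds_unique l (tendsto_const_nhds (x := (0 : ℝ)).congr' (by
      filter_upwards [mem_nhdsWithin_of_mem_nhds hM] with t ht
      have := (fix_iff _).1 ht
      simp only [Pi.add_apply]
      rw [← add_div, ← add_div, this, zero_div]))
    simp at this
    norm_num at this

end Pool.Agent.Results.MP_8dfbdc_an.NotSmooth
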